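import Pool.Agent.VMX.StmtsA

set_option autoImplicit false

/-!
# VMX squad, row SLB: moves inside a slice
-/

open Matrix Filter Topology

namespace Pool.Agent.VMX.H19

open Pool.Agent.PFS Pool.Agent.PFJ Pool.Agent.NBT Pool.Agent.VMX

/-- the sum without the vertex `j` is not in `C` -/
lemma bd_without {n K : ℕ} {C : Set (V n)} {w : Fin K → V n} (hw : PES C w) {p j : Fin K}
    (hpj : p ≠ j) : w p + fS w {p, j}ᶜ ∉ C := by
  have h1 := hw.bd (fun i => if i = j then 0 else 1) (fun i => by split_ifs <;> norm_num)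
    ⟨j, by simp⟩
  have e : ∑ i, (if i = j then (0 : ℝ) else 1) • w i = w p + fS w {p, j}ᶜ := by
    have e1 : ∑ i, (if i = j then (0 : ℝ) else 1) • w i = ∑ i ∈ ({j} : Finset (Fin K))ᶜ, w i := by
      rw [← Finset.sum_filter_add_sum_filter_not Finset.univ (fun i => i = j)]
      have z1 : ∑ i ∈ Finset.univ.filter (fun i => i = j), (if i = j then (0 : ℝ) else 1) • w i = 0 := by
        apply Finset.sum_eq_zero
        intro i hi
        rw [Finset.mem_filter] at hi
        rw [if_pos hi.2, zero_smul]
      rw [z1, zero_add]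
      have hset : Finset.univ.filter (fun i => ¬ i = j) = ({j} : Finset (Fin K))ᶜ := by
        ext i
        simp
      rw [hset]
      apply Finset.sum_congr rfl
      intro i hi
      have hij : i ≠ j := by
        simpa using hi
      rw [if_neg hij, one_smul]
    have e2 : ({j} : Finset (Fin K))ᶜ = insert p ({p, j} : Finset (Fin K))ᶜ := by
      ext i
      simp only [Finset.mem_compl, Finset.mem_singleton, Finset.mem_insert]
      constructor
      · intro h
        by_cases hp : i = p
        · exact Or.inl hp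
        · exact Or.inr (by tauto)
      · rintro (h | h)
        · rw [h]
          exact hpj
        · tauto
    rw [e1, e2, Finset.sum_insert (by simp)]
    rfl
  rw [e] at h1
  exact h1

/-- the total sum -/
lemma sum_split {n K : ℕ} (w : Fin K → V n) {p j : Fin K} (hpj : p ≠ j) :
    ∑ i, w i = (w p + w j) + fS w {p, j}ᶜ := by
  rw [← fS_pair w hpj, fS_add_compl]

/-- part (3) -/
lemma slb3 {n K : ℕ} {C : Set (V n)} (hP : PCone C) {z : Fin K → V n} (hz : PES C z)
    {p j : Fin K} (hpj : p ≠ j) {E : Submodule ℝ (V n)} (hE : IB C z {p, j} E) {h : V n}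
    (hh : h ∈ E) (hz' : PES C (Function.update z p h)) :
    PCO.Bd C E h ∧ ∀ a : ℝ, h ≠ a • z j := by
  have hcl : h ∈ closure C := by
    have h1 := hz'.cl p
    rwa [Function.update_self] at h1
  have hlin := Pool.Agent.PFS.H60.lin n C hP (Fin K) _ hz'
  have h0 : h ≠ 0 := by
    have h1 := hlin.ne_zero p
    rwa [Function.update_self] at h1
  refine ⟨⟨hh, hcl, h0, ?_⟩, ?_⟩
  · intro hU
    obtain ⟨M, hM, h1⟩ := hU.2.2 (z p + z j) (E.add_mem (hE.mem p (by simp)) (hE.mem j (by simp)))
    have hb := bd_without hz' hpj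
    rw [Function.update_self, fS_update z p h (by simp)] at hb
    apply hb
    have hf : fS z {p, j}ᶜ ∈ closure C := fS_cl hP (fun i => hz.cl i) _
    have h2 : (M + 1) • (h + fS z {p, j}ᶜ) ∈ C := by
      have h3 : (M + 1) • (h + fS z {p, j}ᶜ) = ∑ i, z i +
          ((M • h - (z p + z j)) + (h + M • fS z {p, j}ᶜ)) := by
        rw [sum_split z hpj, smul_add, add_smul, add_smul, one_smul, one_smul]
        abel
      rw [h3]
      exact hP.add_cl hz.sum_mem (hP.cl_add h1 (hP.cl_add hcl (hP.cl_smul hf hM.le)))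
    exact (hP.smul_iff (by positivity)).mp h2
  · intro a ha
    have h1 : (1 : ℝ) • (Function.update z p h) p + (-a) • (Function.update z p h) j = 0 := by
      rw [Function.update_self, Function.update_of_ne (Ne.symm hpj), ha, one_smul, neg_smul,
        add_neg_cancel]
    have h2 : ∑ i, (if i = p then (1 : ℝ) else if i = j then -a else 0) •
        (Function.update z p h) i = 0 := by
      rw [← h1, ← Finset.sum_subset (Finset.subset_univ ({p, j} : Finset (Fin K))),
        Finset.sum_pair hpj]
      · rw [if_pos rfl, if_neg (Ne.symm hpj), if_pos rfl]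
      · intro i _ hi
        have h3 : i ≠ p ∧ i ≠ j := by
          simpa using hi
        rw [if_neg h3.1, if_neg h3.2, zero_smul]
    have h4 := (Fintype.linearIndependent_iff.mp hlin) _ h2 p
    rw [if_pos rfl] at h4
    exact one_ne_zero h4

/-- **Row SLB** -/
theorem slb (hFMC : FmcStmt) (hSLA : SlaStmt) : SlbStmt := by
  intro n C Γ hCC K hK hmax z hz p j hpj E hE
  have hP : PCone C := hCC.toPCone
  obtain ⟨hunt, -, hbox, -⟩ := (Pool.Agent.NBT.H13.ibf n C hP K z hz.1).1 {p, j} E hE
  rw [fS_pair z hpj] at hunt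
  obtain ⟨hsum, -⟩ := hSLA n C Γ hCC K hK hmax z hz p j hpj E hE
  have hpE : z p ∈ E := hE.mem p (by simp)
  have hjE : z j ∈ E := hE.mem j (by simp)
  have hjcl : z j ∈ closure C := hz.1.cl j
  have hlin := Pool.Agent.PFS.H60.lin n C hP (Fin K) _ hz.1
  have hj0 : z j ≠ 0 := hlin.ne_zero j
  have p1 : ∀ e ∈ E, Dm C e (z p + z j) := fun e he => hunt.2.2 e he
  have p3 : ∀ h ∈ E, IsPES C Γ (Function.update z p h) →
      PCO.Bd C E h ∧ ∀ a : ℝ, h ≠ a • z j := fun h hh hz' => slb3 hP hz.1 hpj hE hh hz'.1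
  refine ⟨p1, ?_, p3, ?_, ?_, hunt⟩
  · intro e he hne
    obtain ⟨-, -, -, -, h5, -⟩ := hFMC n C Γ hCC K hK hmax z p hz
    have hnot : e + fS z {p, j}ᶜ ∉ C := by
      intro hc
      obtain ⟨M, hM, h1⟩ := hP.absorb hc (z p + z j)
      have h2 : (M • e - (z p + z j)) + ∑ m ∈ ({p, j} : Finset (Fin K))ᶜ, M • z m ∈ closure C := by
        have h3 : (M • e - (z p + z j)) + ∑ m ∈ ({p, j} : Finset (Fin K))ᶜ, M • z m =
            M • (e + fS z {p, j}ᶜ) - (z p + z j) := by
          rw [← Finset.smul_sum, smul_add]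
          unfold fS
          abel
        rw [h3]
        exact subset_closure h1
      have h3 := (hbox _ (E.sub_mem (E.smul_mem M he.1) (E.add_mem hpE hjE)) (fun _ => M) h2).1
      apply he.2.2.2
      have h4 := (Pool.Agent.PFJ.H76.unf n C hP E _ hunt).2.1 (M • e) (E.smul_mem M he.1) h3
      have h6 := (Pool.Agent.PFJ.H76.unf n C hP E _ h4).1 M⁻¹ (inv_pos.mpr hM)
      rwa [smul_smul, inv_mul_cancel₀ hM.ne', one_smul] at h6
    refine ⟨h5 j e (Ne.symm hpj) he.2.1 he.2.2.1 (p1 e he.1) hne hnot, ?_, ?_⟩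
    · have hu := hsum e he.1 (z j) hjE he.2.1 hjcl (ind2_of_ne hj0 hne)
      exact hu.2.2 (z p) hpE
    · refine ⟨?_, ?_⟩
      · intro i hi
        rw [Finset.mem_insert, Finset.mem_singleton] at hi
        rcases hi with rfl | rfl
        · rw [Function.update_self]
          exact he.1
        · rw [Function.update_of_ne (Ne.symm hpj)]
          exact hjE
      · intro v hv h7
        rw [fS_update z p e (by simp)] at h7
        exact hE.box v hv h7
  · exact (p3 (z p) hpE (by rw [Function.update_eq_self]; exact hz)).1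
  · have hE' : IB C z {j, p} E := by
      rw [Finset.pair_comm]
      exact hE
    exact (slb3 hP hz.1 (Ne.symm hpj) hE' hjE (by rw [Function.update_eq_self]; exact hz.1)).1

end Pool.Agent.VMX.H19
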